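import Pool.Agent.Run7.h343.PV.Iface

/-!
# QF: Selberg's quadratic form
-/

set_option autoImplicit false

namespace Pool.Agent.Run7.h781.PV

open Finset
open Pool.Agent.Run7.h343.PV

/-- Jordan's function of real order (on squarefree numbers) -/
noncomputable def Jf (σ : ℝ) : ArithmeticFunction ℝ :=
  ArithmeticFunction.prodPrimeFactors fun p => (p : ℝ) ^ σ - 1

theorem Jf_apply (σ : ℝ) {n : ℕ} (hn : n ≠ 0) :
    Jf σ n = ∏ p ∈ n.primeFactors, ((p : ℝ) ^ σ - 1) :=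
  ArithmeticFunction.prodPrimeFactors_apply hn

theorem Jf_nonneg {σ : ℝ} (hσ : 0 ≤ σ) (n : ℕ) : 0 ≤ Jf σ n := by
  by_cases hn : n = 0
  · subst hn; rw [ArithmeticFunction.map_zero]
  · rw [Jf_apply σ hn]
    exact prod_nonneg fun p hp => sub_nonneg.2 (Real.one_le_rpow
      (by exact_mod_cast (Nat.prime_of_mem_primeFactors hp).one_le) hσ)

theorem sum_Jf (σ : ℝ) {n : ℕ} (hn : Squarefree n) :
    ∑ d ∈ n.divisors, Jf σ d = (n : ℝ) ^ σ := by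
  have h1 : (Jf σ).IsMultiplicative := ArithmeticFunction.IsMultiplicative.prodPrimeFactors _
  rw [← h1.prodPrimeFactors_one_add_of_squarefree hn]
  have h2 : ∀ p ∈ n.primeFactors, 1 + Jf σ p = (p : ℝ) ^ σ := by
    intro p hp
    have hp' := Nat.prime_of_mem_primeFactors hp
    rw [Jf_apply σ hp'.ne_zero, hp'.primeFactors, prod_singleton]
    ring
  rw [prod_congr rfl h2, Real.finsetProd_rpow _ _ (fun p _ => Nat.cast_nonneg p), ← Nat.cast_prod,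
    Nat.prod_primeFactors_of_squarefree hn]

theorem Jf_le {σ : ℝ} (hσ : 0 ≤ σ) {n : ℕ} (hn : Squarefree n) : Jf σ n ≤ (n : ℝ) ^ σ := by
  rw [← sum_Jf σ hn]
  exact single_le_sum (fun d _ => Jf_nonneg hσ d) (Nat.mem_divisors_self n hn.ne_zero)

theorem mu_of_not {n : ℕ} (h : ¬ Squarefree n) : mu n = 0 := by
  rw [mu, ArithmeticFunction.moebius_eq_zero_of_not_squarefree h, Int.cast_zero]

theorem mu_mul {d k : ℕ} (h : d.Coprime k) : mu (d * k) = mu d * mu k := by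
  rw [mu, mu, mu, ArithmeticFunction.isMultiplicative_moebius.map_mul_of_coprime h, Int.cast_mul]

theorem mu_sq_le (n : ℕ) : mu n ^ 2 ≤ 1 := by
  have h := ArithmeticFunction.abs_moebius_le_one (n := n)
  rw [mu, ← sq_abs, ← Int.cast_abs]
  have h1 : ((|ArithmeticFunction.moebius n| : ℤ) : ℝ) ≤ 1 := by exact_mod_cast h
  have h2 : (0 : ℝ) ≤ ((|ArithmeticFunction.moebius n| : ℤ) : ℝ) := by
    exact_mod_cast abs_nonneg _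
  nlinarith

/-- the summand -/
noncomputable def aa (σ : ℝ) (G : ℕ → ℝ) (d l : ℕ) : ℝ :=
  if d ∣ l then mu l * G l / (l : ℝ) ^ σ else 0

/-- diagonalisation of one term -/
theorem term_eq (σ : ℝ) (G : ℕ → ℝ) (Y l₁ l₂ : ℕ) (h1 : l₁ ∈ Icc 1 Y) (h2 : l₂ ∈ Icc 1 Y) :
    mu l₁ * mu l₂ * G l₁ * G l₂ / ((Nat.lcm l₁ l₂ : ℕ) : ℝ) ^ σ =
      ∑ d ∈ Icc 1 Y, Jf σ d * (aa σ G d l₁ * aa σ G d l₂) := by
  rw [mem_Icc] at h1 h2
  by_cases hs1 : Squarefree l₁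
  swap
  · have e : ∀ d, aa σ G d l₁ = 0 := fun d => by
      unfold aa; split_ifs
      · rw [mu_of_not hs1, zero_mul, zero_div]
      · rfl
    rw [mu_of_not hs1, sum_eq_zero fun d _ => by rw [e, zero_mul, mul_zero]]
    simp
  by_cases hs2 : Squarefree l₂
  swap
  · have e : ∀ d, aa σ G d l₂ = 0 := fun d => by
      unfold aa; split_ifs
      · rw [mu_of_not hs2, zero_mul, zero_div]
      · rfl
    rw [mu_of_not hs2, sum_eq_zero fun d _ => by rw [e, mul_zero, mul_zero]]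
    simp
  have hp1 : (0 : ℝ) < l₁ := by exact_mod_cast h1.1
  have hp2 : (0 : ℝ) < l₂ := by exact_mod_cast h2.1
  have hgp : 0 < Nat.gcd l₁ l₂ := Nat.gcd_pos_of_pos_left _ h1.1
  have hlp : 0 < Nat.lcm l₁ l₂ := Nat.lcm_pos h1.1 h2.1
  have hg : Squarefree (Nat.gcd l₁ l₂) := hs1.squarefree_of_dvd (Nat.gcd_dvd_left _ _)
  have hdiv : (Nat.gcd l₁ l₂).divisors = (Icc 1 Y).filter (fun d => d ∣ l₁ ∧ d ∣ l₂) := by
    ext d
    rw [Nat.mem_divisors, mem_filter, mem_Icc, Nat.dvd_gcd_iff]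
    constructor
    · rintro ⟨h, -⟩
      exact ⟨⟨Nat.pos_of_dvd_of_pos h.1 h1.1, (Nat.le_of_dvd h1.1 h.1).trans h1.2⟩, h⟩
    · rintro ⟨-, h⟩
      exact ⟨h, hgp.ne'⟩
  have hsum : ∑ d ∈ Icc 1 Y, Jf σ d * (aa σ G d l₁ * aa σ G d l₂) =
      (∑ d ∈ (Nat.gcd l₁ l₂).divisors, Jf σ d) *
        ((mu l₁ * G l₁ / (l₁ : ℝ) ^ σ) * (mu l₂ * G l₂ / (l₂ : ℝ) ^ σ)) := by
    rw [hdiv, sum_filter, sum_mul]
    refine sum_congr rfl fun d _ => ?_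
    unfold aa
    by_cases hd1 : d ∣ l₁
    · by_cases hd2 : d ∣ l₂
      · rw [if_pos hd1, if_pos hd2, if_pos ⟨hd1, hd2⟩]
      · have h3 : ¬ (d ∣ l₁ ∧ d ∣ l₂) := fun h => hd2 h.2
        rw [if_neg hd2, if_neg h3, mul_zero, mul_zero, zero_mul]
    · have h3 : ¬ (d ∣ l₁ ∧ d ∣ l₂) := fun h => hd1 h.1
      rw [if_neg hd1, if_neg h3, zero_mul, mul_zero, zero_mul]
  rw [hsum, sum_Jf σ hg]
  have hlc : ((Nat.lcm l₁ l₂ : ℕ) : ℝ) ^ σ * ((Nat.gcd l₁ l₂ : ℕ) : ℝ) ^ σ =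
      (l₁ : ℝ) ^ σ * (l₂ : ℝ) ^ σ := by
    rw [← Real.mul_rpow (Nat.cast_nonneg _) (Nat.cast_nonneg _), ← Real.mul_rpow hp1.le hp2.le,
      ← Nat.cast_mul, ← Nat.cast_mul, mul_comm (Nat.lcm l₁ l₂), Nat.gcd_mul_lcm]
  have q1 : (0 : ℝ) < (l₁ : ℝ) ^ σ := Real.rpow_pos_of_pos hp1 _
  have q2 : (0 : ℝ) < (l₂ : ℝ) ^ σ := Real.rpow_pos_of_pos hp2 _
  have q3 : (0 : ℝ) < ((Nat.lcm l₁ l₂ : ℕ) : ℝ) ^ σ :=
    Real.rpow_pos_of_pos (by exact_mod_cast hlp) _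
  have q4 : (0 : ℝ) < ((Nat.gcd l₁ l₂ : ℕ) : ℝ) ^ σ :=
    Real.rpow_pos_of_pos (by exact_mod_cast hgp) _
  rw [div_mul_div_comm, ← hlc, mul_div_assoc', div_eq_div_iff q3.ne' (mul_pos q3 q4).ne']
  ring

theorem diagonal (σ : ℝ) (G : ℕ → ℝ) (Y : ℕ) :
    ∑ l₁ ∈ Icc 1 Y, ∑ l₂ ∈ Icc 1 Y,
      mu l₁ * mu l₂ * G l₁ * G l₂ / ((Nat.lcm l₁ l₂ : ℕ) : ℝ) ^ σ =
    ∑ d ∈ Icc 1 Y, Jf σ d * (∑ l ∈ Icc 1 Y, aa σ G d l) ^ 2 := by
  have h1 : ∀ l₁ ∈ Icc 1 Y, ∑ l₂ ∈ Icc 1 Y,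
      mu l₁ * mu l₂ * G l₁ * G l₂ / ((Nat.lcm l₁ l₂ : ℕ) : ℝ) ^ σ =
      ∑ l₂ ∈ Icc 1 Y, ∑ d ∈ Icc 1 Y, Jf σ d * (aa σ G d l₁ * aa σ G d l₂) := fun l₁ hl₁ =>
    sum_congr rfl fun l₂ hl₂ => term_eq σ G Y l₁ l₂ hl₁ hl₂
  rw [sum_congr rfl h1]
  have h2 : ∀ l₁ ∈ Icc 1 Y, ∑ l₂ ∈ Icc 1 Y, ∑ d ∈ Icc 1 Y, Jf σ d * (aa σ G d l₁ * aa σ G d l₂) =
      ∑ d ∈ Icc 1 Y, Jf σ d * (aa σ G d l₁ * ∑ l₂ ∈ Icc 1 Y, aa σ G d l₂) := fun l₁ _ => by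
    rw [sum_comm]
    refine sum_congr rfl fun d _ => ?_
    rw [mul_sum, mul_sum]
  rw [sum_congr rfl h2, sum_comm]
  refine sum_congr rfl fun d _ => ?_
  rw [← mul_sum, ← sum_mul, sq]

/-- the variation of `k ^ (1 - σ)` -/
theorem pow_var {σ : ℝ} (h1 : 1 ≤ σ) (h2 : σ ≤ 2) {k : ℕ} (hk : 1 ≤ k) :
    0 ≤ (k : ℝ) ^ (1 - σ) - ((k + 1 : ℕ) : ℝ) ^ (1 - σ) ∧
    (k : ℝ) ^ (1 - σ) - ((k + 1 : ℕ) : ℝ) ^ (1 - σ) ≤ (σ - 1) / k ∧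
    ((k + 1 : ℕ) : ℝ) ^ (1 - σ) ≤ 1 ∧ 0 ≤ ((k + 1 : ℕ) : ℝ) ^ (1 - σ) := by
  have hk' : (1 : ℝ) ≤ k := by exact_mod_cast hk
  have hk0 : (0 : ℝ) < k := by linarith
  have hk1 : (0 : ℝ) < ((k + 1 : ℕ) : ℝ) := by positivity
  have hle : (k : ℝ) ≤ ((k + 1 : ℕ) : ℝ) := by push_cast; linarith
  have e1 : ((k + 1 : ℕ) : ℝ) ^ (1 - σ) ≤ (k : ℝ) ^ (1 - σ) :=
    Real.rpow_le_rpow_of_nonpos hk0 hle (by linarith)
  have e2 : (k : ℝ) ^ (1 - σ) ≤ 1 := Real.rpow_le_one_of_one_le_of_nonpos hk' (by linarith)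
  refine ⟨sub_nonneg.2 e1, ?_, e1.trans e2, Real.rpow_nonneg hk1.le _⟩
  have hB : (1 + 1 / (k : ℝ)) ^ (σ - 1) ≤ 1 + (σ - 1) * (1 / k) :=
    rpow_one_add_le_one_add_mul_self (by have : 0 < 1 / (k : ℝ) := by positivity
                                         linarith) (by linarith) (by linarith)
  have e3 : ((k + 1 : ℕ) : ℝ) ^ (1 - σ) = (k : ℝ) ^ (1 - σ) * ((1 + 1 / (k : ℝ)) ^ (σ - 1))⁻¹ := by
    have : ((k + 1 : ℕ) : ℝ) = k * (1 + 1 / (k : ℝ)) := by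
      push_cast; field_simp
    rw [this, Real.mul_rpow hk0.le (by positivity), ← Real.rpow_neg (by positivity)]
    congr 2
    ring
  have hp : 0 < (1 + 1 / (k : ℝ)) ^ (σ - 1) := by positivity
  have e4 : 1 - ((1 + 1 / (k : ℝ)) ^ (σ - 1))⁻¹ ≤ (σ - 1) / k := by
    have hs : 0 ≤ (σ - 1) / (k : ℝ) := div_nonneg (by linarith) hk0.le
    rw [mul_one_div] at hB
    have h5 : 1 - (σ - 1) / (k : ℝ) ≤ ((1 + 1 / (k : ℝ)) ^ (σ - 1))⁻¹ := by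
      rw [← one_div, le_div_iff₀ hp]
      by_cases h6 : 0 ≤ 1 - (σ - 1) / (k : ℝ)
      · calc (1 - (σ - 1) / (k : ℝ)) * (1 + 1 / (k : ℝ)) ^ (σ - 1)
            ≤ (1 - (σ - 1) / (k : ℝ)) * (1 + (σ - 1) / k) := mul_le_mul_of_nonneg_left hB h6
          _ ≤ 1 := by nlinarith
      · have := mul_nonneg (neg_nonneg.2 (not_le.1 h6).le) hp.le
        linarith
    linarith
  have h0 : 0 ≤ (k : ℝ) ^ (1 - σ) := Real.rpow_nonneg hk0.le _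
  have h5' : 0 ≤ (σ - 1) / (k : ℝ) := div_nonneg (by linarith) hk0.le
  calc (k : ℝ) ^ (1 - σ) - ((k + 1 : ℕ) : ℝ) ^ (1 - σ)
      = (k : ℝ) ^ (1 - σ) * (1 - ((1 + 1 / (k : ℝ)) ^ (σ - 1))⁻¹) := by rw [e3]; ring
    _ ≤ (k : ℝ) ^ (1 - σ) * ((σ - 1) / k) := mul_le_mul_of_nonneg_left e4 h0
    _ ≤ 1 * ((σ - 1) / k) := mul_le_mul_of_nonneg_right e2 h5'
    _ = (σ - 1) / k := one_mul _

/-- sums over the multiples of `d` -/
theorem sum_mult {Y d : ℕ} (hd : 1 ≤ d) (f : ℕ → ℝ) (hf : ∀ l, Y < l → f l = 0) :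
    ∑ l ∈ Icc 1 Y, (if d ∣ l then f l else 0) = ∑ k ∈ Icc 1 Y, f (d * k) := by
  have h1 : ∑ k ∈ Icc 1 Y, f (d * k) = ∑ l ∈ (Icc 1 Y).image (fun k => d * k), f l := by
    rw [sum_image]
    intro a _ b _ hab
    exact Nat.eq_of_mul_eq_mul_left hd hab
  rw [h1, ← sum_filter]
  apply sum_subset
  · intro l hl
    rw [mem_filter, mem_Icc] at hl
    obtain ⟨⟨hl1, hl2⟩, k, rfl⟩ := hl
    refine mem_image.2 ⟨k, mem_Icc.2 ⟨?_, ?_⟩, rfl⟩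
    · exact Nat.pos_of_ne_zero fun h => by subst h; simp at hl1
    · exact (Nat.le_mul_of_pos_left k hd).trans hl2
  · intro l hl hl'
    obtain ⟨k, hk, rfl⟩ := mem_image.1 hl
    apply hf
    by_contra h
    apply hl'
    rw [mem_filter, mem_Icc]
    rw [mem_Icc] at hk
    exact ⟨⟨Nat.mul_pos hd hk.1, not_lt.1 h⟩, dvd_mul_right _ _⟩

theorem t_QF (hLIP : S_LIP) (hPHI : S_PHI2) : S_QF := by
  obtain ⟨C1, hC1, hL⟩ := hLIP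
  obtain ⟨C2, hC2, hP⟩ := hPHI
  refine ⟨C1 ^ 2 * C2, by positivity, ?_⟩
  intro Y σ Λ G hY hσ1 hσ2 hΛ hG0 hG1 hGv
  rw [diagonal]
  obtain ⟨Mm, hM⟩ : ∃ Mm : ℝ, Mm = Λ + (σ - 1) := ⟨_, rfl⟩
  have hM0 : 0 ≤ Mm := by rw [hM]; linarith
  rw [← hM]
  -- the inner sums
  have hA : ∀ d ∈ Icc 1 Y, |∑ l ∈ Icc 1 Y, aa σ G d l| ≤
      |mu d| * (C1 * Mm * ((d : ℝ) / Nat.totient d)) / (d : ℝ) ^ σ := by
    intro d hd
    rw [mem_Icc] at hd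
    have hd0 : (0 : ℝ) < d := by exact_mod_cast hd.1
    have e1 : ∑ l ∈ Icc 1 Y, aa σ G d l =
        ∑ k ∈ Icc 1 Y, mu (d * k) * G (d * k) / ((d * k : ℕ) : ℝ) ^ σ :=
      sum_mult hd.1 (fun l => mu l * G l / (l : ℝ) ^ σ) fun l hl => by
        simp only [hG0 l hl, mul_zero, zero_div]
    have e2 : ∑ k ∈ Icc 1 Y, mu (d * k) * G (d * k) / ((d * k : ℕ) : ℝ) ^ σ =
        mu d / (d : ℝ) ^ σ * ∑ k ∈ (Icc 1 Y).filter (fun k => k.Coprime d),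
          mu k / k * ((k : ℝ) ^ (1 - σ) * G (d * k)) := by
      rw [mul_sum, sum_filter]
      refine sum_congr rfl fun k hk => ?_
      rw [mem_Icc] at hk
      have hk0 : (0 : ℝ) < k := by exact_mod_cast hk.1
      split_ifs with hc
      · rw [mu_mul hc.symm, Nat.cast_mul, Real.mul_rpow hd0.le hk0.le, Real.rpow_sub hk0,
          Real.rpow_one]
        have q1 : (0 : ℝ) < (d : ℝ) ^ σ := Real.rpow_pos_of_pos hd0 _
        have q2 : (0 : ℝ) < (k : ℝ) ^ σ := Real.rpow_pos_of_pos hk0 _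
        field_simp
      · rw [mu_of_not, zero_mul, zero_div]
        intro hsq
        exact hc (Nat.squarefree_mul_iff.1 hsq).1.symm
    have e3 := hL d hd.1 Mm (fun k => (k : ℝ) ^ (1 - σ) * G (d * k)) Y hM0
      (fun k hk => by
        rw [hG0 (d * k) (lt_of_lt_of_le hk (Nat.le_mul_of_pos_left k hd.1)), mul_zero])
      (fun k hk => by
        obtain ⟨v1, v2, v3, v4⟩ := pow_var hσ1 hσ2 hk
        have hk0 : (0 : ℝ) < k := by exact_mod_cast hk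
        have g1 := hGv d k hd.1 hk
        have g2 := hG1 (d * k)
        have e : ((k + 1 : ℕ) : ℝ) ^ (1 - σ) * G (d * (k + 1)) - (k : ℝ) ^ (1 - σ) * G (d * k) =
            ((k + 1 : ℕ) : ℝ) ^ (1 - σ) * (G (d * (k + 1)) - G (d * k)) -
              ((k : ℝ) ^ (1 - σ) - ((k + 1 : ℕ) : ℝ) ^ (1 - σ)) * G (d * k) := by ring
        rw [e]
        calc |((k + 1 : ℕ) : ℝ) ^ (1 - σ) * (G (d * (k + 1)) - G (d * k)) -
              ((k : ℝ) ^ (1 - σ) - ((k + 1 : ℕ) : ℝ) ^ (1 - σ)) * G (d * k)|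
            ≤ |((k + 1 : ℕ) : ℝ) ^ (1 - σ) * (G (d * (k + 1)) - G (d * k))| +
              |((k : ℝ) ^ (1 - σ) - ((k + 1 : ℕ) : ℝ) ^ (1 - σ)) * G (d * k)| := abs_sub _ _
          _ ≤ 1 * (Λ / k) + (σ - 1) / k * 1 := by
              rw [abs_mul, abs_mul, abs_of_nonneg v4, abs_of_nonneg v1]
              exact add_le_add (mul_le_mul v3 g1 (abs_nonneg _) zero_le_one)
                (mul_le_mul v2 g2 (abs_nonneg _) (v1.trans v2))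
          _ = Mm / k := by rw [hM]; ring)
    rw [e1, e2, abs_mul, abs_div, abs_of_pos (Real.rpow_pos_of_pos hd0 σ)]
    calc |mu d| / (d : ℝ) ^ σ * |∑ k ∈ (Icc 1 Y).filter (fun k => k.Coprime d),
          mu k / k * ((k : ℝ) ^ (1 - σ) * G (d * k))|
        ≤ |mu d| / (d : ℝ) ^ σ * (C1 * Mm * ((d : ℝ) / Nat.totient d)) :=
          mul_le_mul_of_nonneg_left e3 (by positivity)
      _ = |mu d| * (C1 * Mm * ((d : ℝ) / Nat.totient d)) / (d : ℝ) ^ σ := by ring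
  have hT : ∀ d ∈ Icc 1 Y, Jf σ d * (∑ l ∈ Icc 1 Y, aa σ G d l) ^ 2 ≤
      (C1 * Mm) ^ 2 * (mu d ^ 2 * d / (Nat.totient d : ℝ) ^ 2) := by
    intro d hd
    have hAd := hA d hd
    rw [mem_Icc] at hd
    have hd0 : (0 : ℝ) < d := by exact_mod_cast hd.1
    have hd1 : (1 : ℝ) ≤ d := by exact_mod_cast hd.1
    have hJ0 := Jf_nonneg (σ := σ) (by linarith) d
    have q1 : (0 : ℝ) < (d : ℝ) ^ σ := Real.rpow_pos_of_pos hd0 _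
    have hsq : (∑ l ∈ Icc 1 Y, aa σ G d l) ^ 2 ≤
        (|mu d| * (C1 * Mm * ((d : ℝ) / Nat.totient d)) / (d : ℝ) ^ σ) ^ 2 := by
      rw [← sq_abs]
      exact pow_le_pow_left₀ (abs_nonneg _) hAd 2
    refine (mul_le_mul_of_nonneg_left hsq hJ0).trans ?_
    by_cases hs : Squarefree d
    · have hJ := Jf_le (σ := σ) (by linarith) hs
      have e1 : Jf σ d * (|mu d| * (C1 * Mm * ((d : ℝ) / Nat.totient d)) / (d : ℝ) ^ σ) ^ 2 =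
          (Jf σ d / ((d : ℝ) ^ σ) ^ 2) * (mu d ^ 2 * ((C1 * Mm) ^ 2 *
            ((d : ℝ) / Nat.totient d) ^ 2)) := by
        rw [div_pow, mul_pow, sq_abs, mul_pow]
        ring
      have e2 : Jf σ d / ((d : ℝ) ^ σ) ^ 2 ≤ 1 / d := by
        rw [div_le_div_iff₀ (by positivity) hd0, one_mul]
        have h3 : (d : ℝ) ≤ (d : ℝ) ^ σ := by
          calc (d : ℝ) = (d : ℝ) ^ (1 : ℝ) := (Real.rpow_one _).symm
            _ ≤ (d : ℝ) ^ σ := Real.rpow_le_rpow_of_exponent_le hd1 hσ1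
        calc Jf σ d * d ≤ (d : ℝ) ^ σ * (d : ℝ) ^ σ := mul_le_mul hJ h3 hd0.le q1.le
          _ = ((d : ℝ) ^ σ) ^ 2 := (sq _).symm
      rw [e1]
      calc Jf σ d / ((d : ℝ) ^ σ) ^ 2 * (mu d ^ 2 * ((C1 * Mm) ^ 2 *
            ((d : ℝ) / Nat.totient d) ^ 2))
          ≤ 1 / d * (mu d ^ 2 * ((C1 * Mm) ^ 2 * ((d : ℝ) / Nat.totient d) ^ 2)) :=
            mul_le_mul_of_nonneg_right e2 (by positivity)
        _ = (C1 * Mm) ^ 2 * (mu d ^ 2 * d / (Nat.totient d : ℝ) ^ 2) := by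
            rw [div_pow]
            field_simp
    · rw [mu_of_not hs]
      simp
  calc ∑ d ∈ Icc 1 Y, Jf σ d * (∑ l ∈ Icc 1 Y, aa σ G d l) ^ 2
      ≤ ∑ d ∈ Icc 1 Y, (C1 * Mm) ^ 2 * (mu d ^ 2 * d / (Nat.totient d : ℝ) ^ 2) :=
        sum_le_sum hT
    _ = (C1 * Mm) ^ 2 * ∑ d ∈ Icc 1 Y, mu d ^ 2 * d / (Nat.totient d : ℝ) ^ 2 := by rw [mul_sum]
    _ ≤ (C1 * Mm) ^ 2 * (C2 * (1 + Real.log Y)) :=
        mul_le_mul_of_nonneg_left (hP Y hY).2 (by positivity)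
    _ = C1 ^ 2 * C2 * Mm ^ 2 * (1 + Real.log Y) := by ring

end Pool.Agent.Run7.h781.PV
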